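import Mathlib
import Pool.Agent.H43.Pb1

open MeasureTheory ProbabilityTheory Set Filter Topology

namespace Pool.Agent.Results.MP_ec0ea5_pr.Unique

open Pool.Agent.H43.Pb

/-- The law `Beta(w,1)`, with density `w v^(w-1)` on `(0,1)`. -/
noncomputable def beta1 (w : ℝ) : Measure ℝ :=
  (volume.restrict (Ioo 0 1)).withDensity fun v => ENNReal.ofReal (w * v ^ (w - 1))

/-- The `ψ`-power-bias law of `μ`. -/
noncomputable def bias (ψ : ℕ → ℝ) (μ : Measure ℝ) : Measure ℝ :=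
  Measure.sum fun k =>
    ENNReal.ofReal (ψ k / ∫ x, x ^ k ∂μ) • μ.withDensity fun x => ENNReal.ofReal (x ^ k)

/-- `μ` is the law of a positive random variable with the needed moments solving the fixed
point equation. -/
def Sol (w : ℝ) (ψ : ℕ → ℝ) (μ : Measure ℝ) : Prop :=
  IsProbabilityMeasure μ ∧ μ (Iic 0) = 0 ∧ (∀ k, 0 < ψ k → Integrable (fun x => x ^ k) μ) ∧
    μ = ((beta1 w).prod (bias ψ μ)).map fun p => p.1 * p.2

variable {w : ℝ} {ψ : ℕ → ℝ} {μ ν : Measure ℝ}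

lemma beta_Iic (hw : 0 < w) {y : ℝ} (hy : 0 ≤ y) :
    beta1 w (Iic y) = ENNReal.ofReal ((min y 1) ^ w) := by
  have hm : 0 ≤ min y 1 := le_min hy zero_le_one
  have hi : IntervalIntegrable (fun v : ℝ => w * v ^ (w - 1)) volume 0 (min y 1) :=
    (intervalIntegral.intervalIntegrable_rpow' (by linarith)).const_mul w
  have e : (Iic y ∩ Ioo 0 1 : Set ℝ) =ᵐ[volume] (Ioc 0 (min y 1) : Set ℝ) := by
    filter_upwards [Measure.ae_ne volume (1 : ℝ)] with v hv
    refine propext ⟨fun h => ⟨h.2.1, le_min h.1 h.2.2.le⟩, fun h => ?_⟩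
    exact ⟨(le_min_iff.1 h.2).1, h.1, lt_of_le_of_ne (le_min_iff.1 h.2).2 hv⟩
  rw [beta1, withDensity_apply _ measurableSet_Iic, Measure.restrict_restrict measurableSet_Iic,
    Measure.restrict_congr_set e, ← ofReal_integral_eq_lintegral_ofReal hi.1,
    ← intervalIntegral.integral_of_le hm, intervalIntegral.integral_const_mul,
    integral_rpow (Or.inl (by linarith))]
  · congr 1
    rw [sub_add_cancel, Real.zero_rpow hw.ne']; field_simp; ring
  · filter_upwards [ae_restrict_mem measurableSet_Ioc] with v hv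
    exact mul_nonneg hw.le (Real.rpow_nonneg hv.1.le _)

lemma beta_atom (a : ℝ) : beta1 w {a} = 0 :=
  withDensity_absolutelyContinuous _ _ (by simp)

instance : SFinite (beta1 w) := by unfold beta1; infer_instance

lemma bias_apply {S : Set ℝ} (hS : MeasurableSet S) : bias ψ μ S =
    ∑' k, ENNReal.ofReal (ψ k / ∫ x, x ^ k ∂μ) * ∫⁻ x in S, ENNReal.ofReal (x ^ k) ∂μ := by
  simp only [bias, Measure.sum_apply _ hS, Measure.smul_apply, withDensity_apply _ hS, smul_eq_mul]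

lemma ae_pos (h : μ (Iic 0) = 0) : ∀ᵐ x ∂μ, 0 < x := by
  rw [ae_iff]; simp only [not_lt]; exact h

lemma mom (h : Sol w ψ μ) {k : ℕ} (hk : 0 < ψ k) : 0 < ∫ x, x ^ k ∂μ ∧
    ∫⁻ x, ENNReal.ofReal (x ^ k) ∂μ = ENNReal.ofReal (∫ x, x ^ k ∂μ) := by
  haveI := h.1
  have hp : ∀ᵐ x ∂μ, 0 < x ^ k := (ae_pos h.2.1).mono fun x hx => by positivity
  refine ⟨?_, (ofReal_integral_eq_lintegral_ofReal (h.2.2.1 k hk) (hp.mono fun x => le_of_lt)).symm⟩
  refine lt_of_le_of_ne (integral_nonneg_of_ae (hp.mono fun x => le_of_lt)) fun e => ?_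
  have := (integral_eq_zero_iff_of_nonneg_ae (hp.mono fun x => le_of_lt) (h.2.2.1 k hk)).1 e.symm
  obtain ⟨x, a, b⟩ := (hp.and this).exists
  exact a.ne' b

lemma bias_null {S : Set ℝ} (hS : MeasurableSet S) (h : μ S = 0) : bias ψ μ S = 0 := by
  simp [bias_apply hS, Measure.restrict_eq_zero.2 h]

lemma bias_prob (h0 : ∀ k, 0 ≤ ψ k) (h1 : HasSum ψ 1) (h : Sol w ψ μ) :
    IsProbabilityMeasure (bias ψ μ) := by
  refine ⟨?_⟩
  rw [bias_apply MeasurableSet.univ, ← ENNReal.ofReal_one, ← h1.tsum_eq,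
    ENNReal.ofReal_tsum_of_nonneg h0 h1.summable]
  refine tsum_congr fun k => ?_
  rcases (h0 k).lt_or_eq with c | c
  · obtain ⟨a, b⟩ := mom h c
    rw [Measure.restrict_univ, b, ← ENNReal.ofReal_mul (by positivity), div_mul_cancel₀ _ a.ne']
  · simp [← c]

lemma sol_apply (h0 : ∀ k, 0 ≤ ψ k) (h1 : HasSum ψ 1) (h : Sol w ψ μ) {S : Set ℝ}
    (hS : MeasurableSet S) : μ S = ∫⁻ x, beta1 w {v | v * x ∈ S} ∂bias ψ μ := by
  haveI := bias_prob h0 h1 h
  have hm : Measurable fun p : ℝ × ℝ => p.1 * p.2 := by fun_prop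
  conv_lhs => rw [h.2.2.2]
  rw [Measure.map_apply hm hS, Measure.prod_apply_symm (hm hS)]
  rfl

lemma nice (h0 : ∀ k, 0 ≤ ψ k) (h1 : HasSum ψ 1) (h : Sol w ψ μ) : Nice μ ∧ Nice (bias ψ μ) := by
  have hp := bias_null (ψ := ψ) measurableSet_Iic h.2.1
  have ha : ∀ a, μ {a} = 0 := fun a => by
    rw [sol_apply h0 h1 h (measurableSet_singleton a)]
    refine lintegral_eq_zero_of_ae_eq_zero ?_
    filter_upwards [ae_pos hp] with x hx
    refine measure_mono_null (fun v hv => ?_) (beta_atom (a / x))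
    exact eq_div_of_mul_eq hx.ne' hv
  exact ⟨⟨h.1, h.2.1, ha⟩, bias_prob h0 h1 h, hp, fun a => bias_null (measurableSet_singleton a) (ha a)⟩

lemma rel (hw : 0 < w) (h0 : ∀ k, 0 ≤ ψ k) (h1 : HasSum ψ 1) (h : Sol w ψ μ) :
    Rel w μ (bias ψ μ) := by
  haveI := bias_prob h0 h1 h
  have hp := ae_pos (nice h0 h1 h).2.pos
  have hi : ∀ t, 0 < t → Integrable (fun x : ℝ => (max x t) ^ (-w)) (bias ψ μ) := fun t ht =>
    Integrable.of_bound (by fun_prop : Measurable fun x : ℝ => (max x t) ^ (-w)).aestronglyMeasurable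
      (t ^ (-w)) (Eventually.of_forall fun x => by
        rw [Real.norm_eq_abs, abs_of_nonneg (Real.rpow_nonneg (ht.le.trans (le_max_right _ _)) _)]
        exact Real.rpow_le_rpow_of_nonpos ht (le_max_right _ _) (by linarith))
  have key : ∀ t, 0 < t → t ^ (-w) * C μ t = ∫ x, (max x t) ^ (-w) ∂bias ψ μ := by
    intro t ht
    have e : μ (Iic t) = ∫⁻ x, ENNReal.ofReal (t ^ w * (max x t) ^ (-w)) ∂bias ψ μ := by
      rw [sol_apply h0 h1 h measurableSet_Iic]
      refine lintegral_congr_ae ?_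
      filter_upwards [hp] with x hx
      have : {v | v * x ∈ Iic t} = Iic (t / x) := by ext v; simp [le_div_iff₀ hx]
      rw [this, beta_Iic hw (by positivity)]
      congr 1
      have hm : 0 < max x t := lt_of_lt_of_le ht (le_max_right _ _)
      rw [Real.rpow_neg hm.le, ← div_eq_mul_inv, ← Real.div_rpow ht.le hm.le]
      congr 1
      rcases le_total x t with c | c
      · rw [max_eq_right c, div_self ht.ne', min_eq_right ((one_le_div hx).2 c)]
      · rw [max_eq_left c, min_eq_left ((div_le_one hx).2 c)]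
    rw [← ofReal_integral_eq_lintegral_ofReal ((hi t ht).const_mul _) (Eventually.of_forall fun x =>
      mul_nonneg (by positivity) (Real.rpow_nonneg (ht.le.trans (le_max_right _ _)) _)),
      integral_const_mul] at e
    rw [C, Measure.real, e, ENNReal.toReal_ofReal (mul_nonneg (by positivity) (integral_nonneg
      fun x => Real.rpow_nonneg (ht.le.trans (le_max_right _ _)) _)), ← mul_assoc,
      ← Real.rpow_add ht]
    simp
  intro l t hl hlt
  rw [key l hl, key t (hl.trans_le hlt), ← integral_sub (hi l hl) (hi t (hl.trans_le hlt))]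
  refine integral_congr_ae (Eventually.of_forall fun x => ?_)
  rcases le_total x t with c | c
  · simp only [ps, min_eq_left c, max_eq_right c]
  · simp only [ps, min_eq_right c, max_eq_left c, max_eq_left hlt, max_eq_left (hlt.trans c), sub_self]

lemma scale (h0 : ∀ k, 0 ≤ ψ k) (h1 : HasSum ψ 1) (h : Sol w ψ μ) {c : ℝ} (hc : 0 < c) :
    Sol w ψ (μ.map fun x => c * x) := by
  haveI := h.1
  haveI := bias_prob h0 h1 h
  have hm : Measurable fun x : ℝ => c * x := by fun_prop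
  have hb : bias ψ (μ.map fun x => c * x) = (bias ψ μ).map fun x => c * x := by
    ext S hS
    rw [Measure.map_apply hm hS, bias_apply hS, bias_apply (hm hS)]
    refine tsum_congr fun k => ?_
    rw [setLIntegral_map hS (by fun_prop) hm, integral_map hm.aemeasurable (by fun_prop)]
    simp only [mul_pow]
    rw [integral_const_mul]
    simp only [ENNReal.ofReal_mul (show 0 ≤ c ^ k by positivity)]
    rw [lintegral_const_mul _ (by fun_prop), ← mul_assoc,
      ← ENNReal.ofReal_mul' (show 0 ≤ c ^ k by positivity)]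
    congr 2
    rw [mul_comm (c ^ k), ← div_div, div_mul_cancel₀ _ (by positivity)]
  refine ⟨Measure.isProbabilityMeasure_map hm.aemeasurable, ?_, fun k hk => ?_, ?_⟩
  · rw [Measure.map_apply hm measurableSet_Iic]
    refine measure_mono_null (fun x hx => ?_) h.2.1
    exact nonpos_of_mul_nonpos_right hx hc |> fun a => a
  · rw [integrable_map_measure (by fun_prop) hm.aemeasurable]
    simp only [Function.comp_def, mul_pow]
    exact (h.2.2.1 k hk).const_mul _
  · rw [hb]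
    conv_lhs => rw [h.2.2.2]
    conv_rhs => rw [← Measure.map_id (μ := beta1 w), Measure.map_prod_map _ _ measurable_id hm]
    rw [Measure.map_map hm (by fun_prop), Measure.map_map (by fun_prop) (by fun_prop)]
    congr 1
    funext p
    simp only [Function.comp, Prod.map, id]; ring

lemma half (hw : 0 < w) (h0 : ∀ k, 0 ≤ ψ k) (h1 : HasSum ψ 1) (hz : ψ 0 = 0) (h : Sol w ψ μ)
    (h' : Sol w ψ ν) {j : ℕ} (hj : 0 < ψ j) (e : ∫ x, x ^ j ∂μ = ∫ x, x ^ j ∂ν) (t : ℝ) :
    C μ t ≤ C ν t := by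
  obtain ⟨n1, n2⟩ := nice h0 h1 h
  obtain ⟨n3, n4⟩ := nice h0 h1 h'
  haveI := n1.prob; haveI := n2.prob; haveI := n3.prob; haveI := n4.prob
  have hW := W_le hw n1 n3 n2 n4 (rel hw h0 h1 h) (rel hw h0 h1 h')
  have hO : IsOpen {t | C ν t < C μ t} := isOpen_lt n3.cont n1.cont
  have hO0 : {t | C ν t < C μ t} ⊆ Ioi 0 := fun t ht => by
    by_contra c
    have : C ν t < C μ t := ht
    rw [n1.zero (not_lt.1 c), n3.zero (not_lt.1 c)] at this
    exact lt_irrefl _ this
  have up := fun s hs => upper n1 n3 (s := s) hs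
  have lo := fun s hs => lower n1 n3 (s := s) hs
  set O := {t | C ν t < C μ t}
  have hk0 : ∀ k, 0 < ψ k → k ≠ 0 := fun k hk e => by rw [e, hz] at hk; exact lt_irrefl _ hk
  have split : ∀ ρ, Sol w ψ ρ → ∀ k, 0 < ψ k → ∫⁻ x in O, ENNReal.ofReal (x ^ k) ∂ρ +
      ∫⁻ x in Oᶜ ∩ Ioi 0, ENNReal.ofReal (x ^ k) ∂ρ = ENNReal.ofReal (∫ x, x ^ k ∂ρ) := by
    intro ρ hρ k hk
    rw [← (mom hρ hk).2, ← lintegral_add_compl (μ := ρ) _ hO.measurableSet]
    congr 1
    refine setLIntegral_congr ?_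
    filter_upwards [ae_pos hρ.2.1] with x hx
    exact propext ⟨fun h => h.1, fun h => ⟨h, hx⟩⟩
  have A : ∀ k, 0 < ψ k → ∫⁻ x in O, ENNReal.ofReal (x ^ k) ∂μ ≤
      ∫⁻ x in O, ENNReal.ofReal (x ^ k) ∂ν := fun k hk => by
    rw [pow_layer _ hO.measurableSet hO0 (hk0 k hk), pow_layer _ hO.measurableSet hO0 (hk0 k hk)]
    exact setLIntegral_mono' measurableSet_Ioi fun y hy =>
      le_trans le_self_add (up _ (Real.rpow_nonneg (le_of_lt hy) _))
  have B : ∀ k, 0 < ψ k → ∫⁻ x in Oᶜ ∩ Ioi 0, ENNReal.ofReal (x ^ k) ∂ν ≤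
      ∫⁻ x in Oᶜ ∩ Ioi 0, ENNReal.ofReal (x ^ k) ∂μ := fun k hk => by
    have hS := hO.measurableSet.compl.inter (measurableSet_Ioi (a := (0 : ℝ)))
    rw [pow_layer _ hS inter_subset_right (hk0 k hk), pow_layer _ hS inter_subset_right (hk0 k hk)]
    refine setLIntegral_mono' measurableSet_Ioi fun y hy => ?_
    have hs := Real.rpow_nonneg (le_of_lt hy) (k : ℝ)⁻¹
    rw [inter_assoc, Ioi_inter_Ioi, sup_eq_right.2 hs]
    exact lo _ hs
  have T : ∀ k, ENNReal.ofReal (ψ k / ∫ x, x ^ k ∂μ) * ∫⁻ x in O, ENNReal.ofReal (x ^ k) ∂μ ≤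
      ENNReal.ofReal (ψ k / ∫ x, x ^ k ∂ν) * ∫⁻ x in O, ENNReal.ofReal (x ^ k) ∂ν := by
    intro k
    rcases (h0 k).lt_or_eq with c | c
    swap
    · simp [← c]
    have s1 := split μ h k c
    have s2 := split ν h' k c
    have a := A k c
    have b := B k c
    have m1 := (mom h c).1
    have m2 := (mom h' c).1
    generalize ∫⁻ x in O, ENNReal.ofReal (x ^ k) ∂μ = a1 at *
    generalize ∫⁻ x in O, ENNReal.ofReal (x ^ k) ∂ν = a2 at *
    generalize ∫⁻ x in Oᶜ ∩ Ioi 0, ENNReal.ofReal (x ^ k) ∂μ = b1 at *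
    generalize ∫⁻ x in Oᶜ ∩ Ioi 0, ENNReal.ofReal (x ^ k) ∂ν = b2 at *
    generalize ∫ x, x ^ k ∂μ = p1 at *
    generalize ∫ x, x ^ k ∂ν = p2 at *
    have f1 := ENNReal.add_ne_top.1 (s1.trans_ne ENNReal.ofReal_ne_top)
    have f2 := ENNReal.add_ne_top.1 (s2.trans_ne ENNReal.ofReal_ne_top)
    lift a1 to NNReal using f1.1
    lift a2 to NNReal using f2.1
    lift b1 to NNReal using f1.2
    lift b2 to NNReal using f2.2
    have t1 := congrArg ENNReal.toReal s1
    have t2 := congrArg ENNReal.toReal s2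
    rw [← ENNReal.coe_add, ENNReal.coe_toReal, ENNReal.toReal_ofReal m1.le, NNReal.coe_add] at t1
    rw [← ENNReal.coe_add, ENNReal.coe_toReal, ENNReal.toReal_ofReal m2.le, NNReal.coe_add] at t2
    have a' : (a1 : ℝ) ≤ a2 := by exact_mod_cast a
    have b' : (b2 : ℝ) ≤ b1 := by exact_mod_cast b
    rw [← ENNReal.ofReal_coe_nnreal (p := a1), ← ENNReal.ofReal_coe_nnreal (p := a2),
      ← ENNReal.ofReal_mul (by positivity), ← ENNReal.ofReal_mul (by positivity)]
    refine ENNReal.ofReal_le_ofReal ?_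
    rw [div_mul_eq_mul_div, div_mul_eq_mul_div, mul_div_assoc, mul_div_assoc]
    refine mul_le_mul_of_nonneg_left ?_ c.le
    rw [div_le_div_iff₀ m1 m2, ← t1, ← t2]
    have := mul_le_mul a' b' b2.2 a2.2
    nlinarith
  rw [bias_apply hO.measurableSet, bias_apply hO.measurableSet] at hW
  have E : ∫⁻ x in O, ENNReal.ofReal (x ^ j) ∂ν ≤ ∫⁻ x in O, ENNReal.ofReal (x ^ j) ∂μ := by
    by_contra c
    refine not_lt.2 hW (ENNReal.tsum_lt_tsum (i := j) ?_ T ?_)
    · rw [← bias_apply hO.measurableSet]; exact measure_ne_top _ _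
    · rw [e]
      exact ENNReal.mul_lt_mul_right (ENNReal.ofReal_pos.2 (div_pos hj (mom h' hj).1)).ne'
        ENNReal.ofReal_ne_top (not_le.1 c)
  have hf : ∫⁻ x in O, ENNReal.ofReal (x ^ j) ∂μ ≠ ⊤ :=
    (ENNReal.add_ne_top.1 ((split μ h j hj).trans_ne ENNReal.ofReal_ne_top)).1
  rw [pow_layer _ hO.measurableSet hO0 (hk0 j hj)] at hf
  rw [pow_layer _ hO.measurableSet hO0 (hk0 j hj), pow_layer _ hO.measurableSet hO0 (hk0 j hj)] at E
  have hj' : (0 : ℝ) < j := by have := Nat.pos_of_ne_zero (hk0 j hj); positivity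
  have hme : AEMeasurable (fun y : ℝ => ν (O ∩ Ioi (y ^ (j : ℝ)⁻¹))) (volume.restrict (Ioi 0)) := by
    refine aemeasurable_restrict_of_antitoneOn measurableSet_Ioi fun x hx y _ hxy => ?_
    exact measure_mono (inter_subset_inter_right _ (Ioi_subset_Ioi
      (Real.rpow_le_rpow (le_of_lt hx) hxy (by positivity))))
  have Q := ae_eq_of_ae_le_of_lintegral_le ((ae_restrict_mem measurableSet_Ioi).mono fun y hy =>
    le_trans le_self_add (up _ (Real.rpow_nonneg (le_of_lt hy) _))) hf hme E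
  by_contra c
  have ht : t ∈ O := not_le.1 c
  have ht0 : 0 < t := hO0 ht
  obtain ⟨ε, e1, e2⟩ := Metric.isOpen_iff.1 hO t ht
  have hsub : Ioo (t ^ j) ((t + ε) ^ j) ⊆ Ioi 0 := fun y hy => lt_trans (by positivity) hy.1
  have hne : (ae (volume.restrict (Ioo (t ^ j) ((t + ε) ^ j)))).NeBot := by
    rw [ae_neBot, Ne, Measure.restrict_eq_zero, Real.volume_Ioo, ENNReal.ofReal_eq_zero, not_le,
      sub_pos]
    exact pow_lt_pow_left₀ (by linarith) ht0.le (hk0 j hj)
  obtain ⟨y, y1, y2⟩ := ((ae_restrict_of_ae_restrict_of_subset hsub Q).and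
    (ae_restrict_mem measurableSet_Ioo)).exists
  have hy : 0 < y := hsub y2
  have s1 : t < y ^ (j : ℝ)⁻¹ := by
    rw [Real.lt_rpow_inv_iff_of_pos ht0.le hy.le hj', Real.rpow_natCast]; exact y2.1
  have s2 : y ^ (j : ℝ)⁻¹ < t + ε := by
    rw [Real.rpow_inv_lt_iff_of_pos hy.le (by linarith) hj', Real.rpow_natCast]; exact y2.2
  have s3 : C ν (y ^ (j : ℝ)⁻¹) < C μ (y ^ (j : ℝ)⁻¹) := e2 (by
    rw [Metric.mem_ball, Real.dist_eq, abs_lt]; constructor <;> linarith)
  have s4 := up _ (ht0.trans s1).le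
  rw [← show μ _ = ν _ from y1] at s4
  exact not_lt.2 s4 (ENNReal.lt_add_right (measure_ne_top _ _)
    (ENNReal.ofReal_pos.2 (by linarith)).ne')

theorem result (w : ℝ) (hw : 0 < w) (ψ : ℕ → ℝ) (h0 : ∀ k, 0 ≤ ψ k) (hz : ψ 0 = 0)
    (h1 : HasSum ψ 1) (μ ν : Measure ℝ) (h : Sol w ψ μ) (h' : Sol w ψ ν) :
    ∃ c : ℝ, 0 < c ∧ ν = μ.map fun x => c * x := by
  obtain ⟨j, hj⟩ : ∃ j, 0 < ψ j := by
    by_contra c
    push Not at c
    have : ψ = fun _ => 0 := funext fun k => le_antisymm (c k) (h0 k)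
    rw [this] at h1
    exact zero_ne_one (hasSum_zero.unique h1)
  have hj0 : j ≠ 0 := fun e => by rw [e, hz] at hj; exact lt_irrefl _ hj
  have m1 := (mom h hj).1
  have m2 := (mom h' hj).1
  set c := ((∫ x, x ^ j ∂ν) / ∫ x, x ^ j ∂μ) ^ (j : ℝ)⁻¹
  have hc : 0 < c := by positivity
  have hs := scale h0 h1 h hc
  have e : ∫ x, x ^ j ∂ν = ∫ x, x ^ j ∂(μ.map fun x => c * x) := by
    rw [integral_map (by fun_prop) (by fun_prop)]
    simp only [mul_pow]
    rw [integral_const_mul, Real.rpow_inv_natCast_pow (by positivity) hj0,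
      div_mul_cancel₀ _ m1.ne']
  haveI := h'.1
  haveI := hs.1
  refine ⟨c, hc, Measure.ext_of_Iic _ _ fun t => ?_⟩
  exact (measureReal_eq_measureReal_iff (measure_ne_top _ _) (measure_ne_top _ _)).1
    (le_antisymm (half hw h0 h1 hz h' hs hj e t) (half hw h0 h1 hz hs h' hj e.symm t))

end Pool.Agent.Results.MP_ec0ea5_pr.Unique
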